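import Pool.Agent.W74.SG.BLFa

/-!
SG project, task BLF (helper74): the Bessel inequality for linear forms.
-/

set_option autoImplicit false

namespace Pool.Agent.W74.SG

open Finset
open Pool.Agent.H442R2
open Pool.Agent.H442R2.KF
open Pool.Agent.W23.SG

namespace TaskBLF

lemma DL_triv {f : ℕ → ℝ} (hf : ∀ p, |f p| ≤ 1) (N : ℕ) (L : ℤ × ℕ) (d : ℕ) :
    |DL f N L d| ≤ 2 * N := by
  unfold DL
  have h1 : |∑ p ∈ (Icc 1 N).filter (fun p : ℕ => p.Prime ∧ (d : ℤ) ∣ lf L p), f p| ≤ N :=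
    BX.TaskBK.sum_triv hf (filter_subset _ _)
  have h3 : |∑ p ∈ (Icc 1 N).filter Nat.Prime, f p| ≤ N :=
    BX.TaskBK.sum_triv hf (filter_subset _ _)
  have h2 : |(∑ p ∈ (Icc 1 N).filter Nat.Prime, f p) / (Nat.totient d : ℝ)| ≤ N := by
    rw [abs_div, Nat.abs_cast]
    rcases Nat.eq_zero_or_pos (Nat.totient d) with h | h
    · rw [h]
      simp
    · refine (div_le_self (abs_nonneg _) ?_).trans h3
      exact_mod_cast h
  have h4 := abs_sub (∑ p ∈ (Icc 1 N).filter (fun p : ℕ => p.Prime ∧ (d : ℤ) ∣ lf L p), f p)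
    ((∑ p ∈ (Icc 1 N).filter Nat.Prime, f p) / (Nat.totient d : ℝ))
  linarith

lemma small {f : ℕ → ℝ} (hf : ∀ p, |f p| ≤ 1) {N : ℕ} {L : ℤ × ℕ} {T : Finset ℕ}
    (hT : T ⊆ Icc 1 N) : (∑ d ∈ T, |DL f N L d|) ^ 2 ≤ 4 * (N : ℝ) ^ 4 := by
  have h1 : ∑ d ∈ T, |DL f N L d| ≤ T.card * (2 * N) := by
    refine (sum_le_card_nsmul _ _ (2 * (N : ℝ)) (fun d _ => DL_triv hf N L d)).trans ?_
    rw [nsmul_eq_mul]
  have h2 : (T.card : ℝ) ≤ N := by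
    have := card_le_card hT
    rw [Nat.card_Icc] at this
    exact_mod_cast (by omega : T.card ≤ N)
  have h3 : ∑ d ∈ T, |DL f N L d| ≤ 2 * (N : ℝ) ^ 2 := by
    refine h1.trans ?_
    calc (T.card : ℝ) * (2 * N) ≤ N * (2 * N) := by gcongr
      _ = 2 * (N : ℝ) ^ 2 := by ring
  calc (∑ d ∈ T, |DL f N L d|) ^ 2 ≤ (2 * (N : ℝ) ^ 2) ^ 2 :=
        pow_le_pow_left₀ (sum_nonneg fun d _ => abs_nonneg _) h3 2
    _ = 4 * (N : ℝ) ^ 4 := by ring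

/-- the case of large `N`, numbers only -/
lemma num {x L e0 C1 C2 C3 n1 n2 η Q lz Fs G O E SY Sa c : ℝ} (hx : 2 ≤ x) (hL : L = Real.log x)
    (he0 : 0 < e0) (hC1 : 0 < C1) (hC2 : 0 < C2) (hC3 : 0 < C3)
    (hη1 : η ≤ n1) (hη2 : η ≤ 2 * n2) (hc : 0 ≤ c)
    (hlz : e0 / 2 * L ≤ lz) (hFs0 : 0 ≤ Fs) (hFsQ : Fs ≤ Q) (hFsx : Fs ≤ x)
    (hG : G = C2 * x / lz) (hO : O = C1 * x ^ (1 - n1)) (hSY : SY ≤ 25 * Fs * (G + c * O))
    (hE0 : 0 ≤ E) (hE : E ≤ 3 * C3 * x ^ (1 - n2)) (hSa : Sa ≤ 2 * SY + 2 * c * E ^ 2) :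
    Sa ≤ (50 * C2 * (2 / e0) + 50 * C1 + 18 * C3 ^ 2) * (Q * (x / L) + c * x ^ (2 - η)) := by
  have hx0 : 0 < x := by linarith
  have hx1 : 1 ≤ x := by linarith
  have hL0 : 0 < L := by
    rw [hL]
    exact Real.log_pos (by linarith)
  have hy : 0 < x / L := div_pos hx0 hL0
  have hlz0 : 0 < lz := lt_of_lt_of_le (by positivity) hlz
  have h1 : x / lz ≤ 2 / e0 * (x / L) := by
    rw [div_le_iff₀ hlz0]
    calc x = 2 / e0 * (x / L) * (e0 / 2 * L) := by field_simp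
      _ ≤ 2 / e0 * (x / L) * lz := by gcongr
  have hQ0 : 0 ≤ Q := hFs0.trans hFsQ
  have h3 : G ≤ C2 * (2 / e0) * (x / L) := by
    rw [hG, mul_div_assoc]
    calc C2 * (x / lz) ≤ C2 * (2 / e0 * (x / L)) := by gcongr
      _ = _ := by ring
  have hG0 : 0 ≤ G := by
    rw [hG]
    positivity
  have hO0 : 0 ≤ O := by
    rw [hO]
    positivity
  set u := x ^ (2 - η) with hu
  have hu0 : 0 < u := Real.rpow_pos_of_pos hx0 _
  have h4 : x * O ≤ C1 * u := by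
    rw [hO]
    have e1 : x * (C1 * x ^ (1 - n1)) = C1 * x ^ (2 - n1) := by
      have : x ^ (2 - n1) = x ^ (1:ℝ) * x ^ (1 - n1) := by
        rw [← Real.rpow_add hx0]
        congr 1
        ring
      rw [this, Real.rpow_one]
      ring
    rw [e1]
    have : x ^ (2 - n1) ≤ u := Real.rpow_le_rpow_of_exponent_le hx1 (by linarith)
    gcongr
  have h6 : 25 * Fs * G ≤ 25 * C2 * (2 / e0) * (Q * (x / L)) := by
    calc 25 * Fs * G ≤ 25 * Q * (C2 * (2 / e0) * (x / L)) := by gcongr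
      _ = _ := by ring
  have h7 : 25 * Fs * (c * O) ≤ 25 * C1 * (c * u) := by
    calc 25 * Fs * (c * O) ≤ 25 * x * (c * O) := by gcongr
      _ = 25 * c * (x * O) := by ring
      _ ≤ 25 * c * (C1 * u) := by gcongr
      _ = _ := by ring
  have h8 : E ^ 2 ≤ 9 * C3 ^ 2 * u := by
    have e1 : (x ^ (1 - n2)) ^ 2 ≤ u := by
      rw [← Real.rpow_natCast, ← Real.rpow_mul hx0.le]
      apply Real.rpow_le_rpow_of_exponent_le hx1
      push_cast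
      linarith
    calc E ^ 2 ≤ (3 * C3 * x ^ (1 - n2)) ^ 2 := pow_le_pow_left₀ hE0 hE 2
      _ = 9 * C3 ^ 2 * (x ^ (1 - n2)) ^ 2 := by ring
      _ ≤ 9 * C3 ^ 2 * u := by gcongr
  have h9 : 2 * c * E ^ 2 ≤ 18 * C3 ^ 2 * (c * u) := by
    calc 2 * c * E ^ 2 ≤ 2 * c * (9 * C3 ^ 2 * u) := by gcongr
      _ = _ := by ring
  have ha : 0 ≤ Q * (x / L) := by positivity
  have hb : 0 ≤ c * u := by positivity
  have hA : 0 ≤ C2 * (2 / e0) := by positivity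
  have hB : 0 ≤ C3 ^ 2 := by positivity
  have h10 : SY ≤ 25 * C2 * (2 / e0) * (Q * (x / L)) + 25 * C1 * (c * u) := by
    calc SY ≤ 25 * Fs * (G + c * O) := hSY
      _ = 25 * Fs * G + 25 * Fs * (c * O) := by ring
      _ ≤ _ := add_le_add h6 h7
  have m1 := mul_nonneg hA hb
  have m2 := mul_nonneg hC1.le ha
  have m3 := mul_nonneg hB ha
  calc Sa ≤ 2 * SY + 2 * c * E ^ 2 := hSa
    _ ≤ 2 * (25 * C2 * (2 / e0) * (Q * (x / L)) + 25 * C1 * (c * u)) +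
        18 * C3 ^ 2 * (c * u) := by linarith
    _ ≤ (50 * C2 * (2 / e0) + 50 * C1 + 18 * C3 ^ 2) * (Q * (x / L) + c * u) := by
        have : (50 * C2 * (2 / e0) + 50 * C1 + 18 * C3 ^ 2) * (Q * (x / L) + c * u) -
          (2 * (25 * C2 * (2 / e0) * (Q * (x / L)) + 25 * C1 * (c * u)) +
            18 * C3 ^ 2 * (c * u)) = 50 * (C2 * (2 / e0) * (c * u)) +
              50 * (C1 * (Q * (x / L))) + 18 * (C3 ^ 2 * (Q * (x / L))) := by ring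
        linarith

/-- the case of small `N`, numbers only -/
lemma num0 {x L η c Sa M Cb Q : ℝ} (hx : 2 ≤ x) (hL : L = Real.log x) (hη : η ≤ 1) (hc : 0 ≤ c)
    (hM : x ≤ M) (hSa : Sa ≤ c * (4 * x ^ 4)) (hCb : 0 ≤ Cb) (hQ : 0 ≤ Q) :
    Sa ≤ (Cb + 4 * M ^ 4) * (Q * (x / L) + c * x ^ (2 - η)) := by
  have hx0 : 0 < x := by linarith
  have hx1 : 1 ≤ x := by linarith
  have hM0 : 0 < M := by linarith
  have hL0 : 0 < L := by
    rw [hL]
    exact Real.log_pos (by linarith)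
  have h1 : 1 ≤ x ^ (2 - η) := Real.one_le_rpow hx1 (by linarith)
  have h2 : 0 ≤ Q * (x / L) := by positivity
  calc Sa ≤ c * (4 * x ^ 4) := hSa
    _ ≤ c * (4 * M ^ 4) := by gcongr
    _ = (0 + 4 * M ^ 4) * (0 + c * 1) := by ring
    _ ≤ (Cb + 4 * M ^ 4) * (Q * (x / L) + c * x ^ (2 - η)) := by
        gcongr

end TaskBLF

theorem BLF (hTTL : St_TTL) (hPBL : St_PBL) (hGS : BX.St_GS) (hGW : BX.St_GW) (hWX : BX.St_WX)
    (hRT : BX.St_RT) : St_BLF := by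
  intro θ ε hθ hε
  obtain ⟨e1, n1, C1, he1, hn1, hC1, tt⟩ := hTTL θ ε hθ hε
  obtain ⟨N2, C2, hC2, di⟩ := diL hPBL hGS hGW ε hε
  obtain ⟨N3, C3, hC3, pr⟩ := prL hPBL hRT ε hε
  obtain ⟨e0, he0, he01, he04⟩ : ∃ e0 : ℝ, 0 < e0 ∧ e0 ≤ e1 ∧ e0 ≤ 1 / 4 :=
    ⟨min e1 (1 / 4), lt_min he1 (by norm_num), min_le_left _ _, min_le_right _ _⟩
  obtain ⟨n2, hn2, hn24, hn2e⟩ : ∃ n2 : ℝ, 0 < n2 ∧ n2 ≤ 1 / 4 ∧ n2 ≤ ε / 2 :=
    ⟨min (1 / 4) (ε / 2), lt_min (by norm_num) (by linarith), min_le_left _ _, min_le_right _ _⟩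
  obtain ⟨η, hη, hη1, hη2⟩ : ∃ η : ℝ, 0 < η ∧ η ≤ n1 ∧ η ≤ n2 :=
    ⟨min n1 n2, lt_min hn1 hn2, min_le_left _ _, min_le_right _ _⟩
  obtain ⟨N5, hN5⟩ : ∃ N5 : ℕ, ∀ N : ℕ, N5 ≤ N → (2 : ℝ) ≤ (N : ℝ) ^ (e0 / 2) := by
    have := ((tendsto_rpow_atTop (half_pos he0)).comp
      (tendsto_natCast_atTop_atTop (R := ℝ))).eventually_ge_atTop 2
    exact Filter.eventually_atTop.1 this
  have hCb : 0 < 50 * C2 * (2 / e0) + 50 * C1 + 18 * C3 ^ 2 := by positivity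
  obtain ⟨M, hM⟩ : ∃ M : ℕ, M = N2 + N3 + N5 + 2 := ⟨_, rfl⟩
  refine ⟨η, 50 * C2 * (2 / e0) + 50 * C1 + 18 * C3 ^ 2 + 4 * (M : ℝ) ^ 4, hη,
    by positivity, ?_⟩
  intro N hN f hf A hA T hT
  have hNr : (2 : ℝ) ≤ N := by exact_mod_cast hN
  have hN0 : (0 : ℝ) < N := by linarith
  have hN1 : (1 : ℝ) ≤ N := by linarith
  obtain ⟨X, hX⟩ : ∃ X : ℕ, X = ⌊(N : ℝ) ^ θ⌋₊ := ⟨_, rfl⟩
  have hXθ : (X : ℝ) ≤ (N : ℝ) ^ θ := by
    rw [hX]
    exact Nat.floor_le (Real.rpow_nonneg hN0.le _)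
  have hXN' : (X : ℝ) ≤ (N : ℝ) ^ (3 / 4 : ℝ) :=
    hXθ.trans (Real.rpow_le_rpow_of_exponent_le hN1 (by linarith))
  have hXN : X ≤ N := by
    have : (X : ℝ) ≤ N := hXN'.trans (by
      calc (N : ℝ) ^ (3 / 4 : ℝ) ≤ (N : ℝ) ^ (1 : ℝ) :=
            Real.rpow_le_rpow_of_exponent_le hN1 (by norm_num)
        _ = N := Real.rpow_one _)
    exact_mod_cast this
  have hTX : ∀ L ∈ A, ∀ d ∈ T L, d ≤ X ∧ BX.Rough ((N : ℝ) ^ ε) d ∧ Nat.Coprime d L.2 := by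
    intro L hL d hd
    obtain ⟨h1, h2, h3⟩ := hT L hL d hd
    exact ⟨hX ▸ Nat.le_floor h1, h2, h3⟩
  have hQ0 : 0 ≤ Q2 f N := sum_nonneg fun p _ => sq_nonneg _
  rcases lt_or_ge N M with hNM | hNM
  · refine TaskBLF.num0 hNr rfl (by linarith) (Nat.cast_nonneg _) (by exact_mod_cast hNM.le) ?_
      hCb.le hQ0
    calc ∑ L ∈ A, (∑ d ∈ T L, |DL f N L d|) ^ 2 ≤ ∑ L ∈ A, 4 * (N : ℝ) ^ 4 := by
          refine sum_le_sum fun L hL => TaskBLF.small hf fun d hd => ?_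
          obtain ⟨h1, h2, -⟩ := hTX L hL d hd
          rw [mem_Icc]
          exact ⟨h2.1.le, h1.trans hXN⟩
      _ = A.card * (4 * (N : ℝ) ^ 4) := by rw [sum_const, nsmul_eq_mul]
  · have hL0 : 0 < Real.log N := Real.log_pos (by linarith)
    have hg2 : (2 : ℝ) ≤ (N : ℝ) ^ (e0 / 2) := hN5 N (by omega)
    obtain ⟨g, hg⟩ : ∃ g : ℝ, g = (N : ℝ) ^ (e0 / 2) := ⟨_, rfl⟩
    rw [← hg] at hg2
    have hgg : (N : ℝ) ^ e0 = g * g := by
      rw [hg, ← Real.rpow_add hN0]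
      congr 1
      ring
    obtain ⟨z, hz⟩ : ∃ z : ℕ, z = ⌊(N : ℝ) ^ e0⌋₊ := ⟨_, rfl⟩
    have hz1 : (z : ℝ) ≤ (N : ℝ) ^ e0 := by
      rw [hz]
      exact Nat.floor_le (Real.rpow_nonneg hN0.le _)
    have hz2 : (N : ℝ) ^ e0 < z + 1 := by
      rw [hz]
      exact Nat.lt_floor_add_one _
    have hgz : g ≤ z := by
      rw [hgg] at hz2
      nlinarith
    have hz3 : 2 ≤ z := by
      have : (2 : ℝ) ≤ z := hg2.trans hgz
      exact_mod_cast this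
    have hz4 : (z : ℝ) ≤ (N : ℝ) ^ (1 / 4 : ℝ) :=
      hz1.trans (Real.rpow_le_rpow_of_exponent_le hN1 he04)
    have hz5 : (z : ℝ) ≤ (N : ℝ) ^ e1 := hz1.trans (Real.rpow_le_rpow_of_exponent_le hN1 he01)
    have hlz : e0 / 2 * Real.log N ≤ Real.log z := by
      rw [← Real.log_rpow hN0, ← hg]
      exact Real.log_le_log (by linarith) hgz
    have hlz0 : 0 < Real.log z := lt_of_lt_of_le (by positivity) hlz
    obtain ⟨lam, hlam⟩ := hWX z hz3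
    have hc : ∀ L : ℤ × ℕ, ∃ c : ℕ → ℝ, L ∈ A → (CofL ((N : ℝ) ^ ε) X L c ∧
        ∑ d ∈ T L, |DL f N L d| ≤
          |∑ p ∈ (Icc 1 N).filter (fun p => p.Prime ∧ z < p), f p * rL c X L p| +
            C3 * (z + X + (N : ℝ) ^ (1 - ε / 2))) := by
      intro L
      by_cases hL : L ∈ A
      · obtain ⟨c, h1, _, h3⟩ := pr N z X (by omega) hXN f hf L (hA L hL) (T L) (hTX L hL)
        exact ⟨c, fun _ => ⟨h1, h3⟩⟩
      · exact ⟨0, fun h => absurd h hL⟩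
    choose c hc using hc
    have hw25 : ∀ p ∈ (Icc 1 N).filter (fun p => p.Prime ∧ z < p),
        (1 : ℝ) ≤ 25 * (fun n : ℤ => Wt N n * BX.nuS lam z n) (p : ℤ) := by
      intro p hp
      rw [mem_filter, mem_Icc] at hp
      exact BX.TaskBK.w_prime hlam (by omega) hp.2.1 hp.2.2 hp.1.2
    have hG0 : 0 ≤ C2 * N / Real.log z := by positivity
    have hO0 : 0 ≤ C1 * (N : ℝ) ^ (1 - n1) := by positivity
    have hdu := DUg.du (fun n : ℤ => Wt N n * BX.nuS lam z n)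
      (fun n => BX.TaskBK.w_nonneg N z lam n)
      ((Icc 1 N).filter (fun p => p.Prime ∧ z < p)) hw25 A (fun L n => rL (c L) X L n) f
      (fun L hL L' hL' => summ_rL N z X (by omega) lam (c L) (c L') hlam.bd (hc L hL).1.bd
        (hc L' hL').1.bd L L')
      (C2 * N / Real.log z) (C1 * (N : ℝ) ^ (1 - n1))
      (fun L hL => di N z X (by omega) hXN hz3 hz4 lam hlam L (hA L hL) (c L) (hc L hL).1)
      hG0 hO0
      (fun L hL L' hL' hLL => tt N z X hN (by omega) hz5 hXθ lam hlam L L' (hA L hL) (hA L' hL')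
        hLL (c L) (c L') (hc L hL).1 (hc L' hL').1)
    have hFsQ : ∑ p ∈ (Icc 1 N).filter (fun p => p.Prime ∧ z < p), f p ^ 2 ≤ Q2 f N := by
      unfold Q2
      apply sum_le_sum_of_subset_of_nonneg
      · intro p hp
        rw [mem_filter] at hp ⊢
        exact ⟨hp.1, hp.2.1⟩
      · intro p _ _
        exact sq_nonneg _
    have hFsx : ∑ p ∈ (Icc 1 N).filter (fun p => p.Prime ∧ z < p), f p ^ 2 ≤ (N : ℝ) := by
      have h1 : ∑ p ∈ (Icc 1 N).filter (fun p => p.Prime ∧ z < p), f p ^ 2 ≤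
          ∑ p ∈ (Icc 1 N).filter (fun p => p.Prime ∧ z < p), (1 : ℝ) := by
        apply sum_le_sum
        intro p _
        rw [← sq_abs]
        exact pow_le_one₀ (abs_nonneg _) (hf p)
      refine h1.trans ?_
      rw [sum_const, nsmul_eq_mul, mul_one]
      have h2 := card_filter_le (Icc 1 N) (fun p => p.Prime ∧ z < p)
      rw [Nat.card_Icc] at h2
      exact_mod_cast (by omega : ((Icc 1 N).filter (fun p => p.Prime ∧ z < p)).card ≤ N)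
    have hE : C3 * (z + X + (N : ℝ) ^ (1 - ε / 2)) ≤ 3 * C3 * (N : ℝ) ^ (1 - n2) := by
      have h1 : (z : ℝ) ≤ (N : ℝ) ^ (1 - n2) :=
        hz4.trans (Real.rpow_le_rpow_of_exponent_le hN1 (by linarith))
      have h2 : (X : ℝ) ≤ (N : ℝ) ^ (1 - n2) :=
        hXN'.trans (Real.rpow_le_rpow_of_exponent_le hN1 (by linarith))
      have h3 : (N : ℝ) ^ (1 - ε / 2) ≤ (N : ℝ) ^ (1 - n2) :=
        Real.rpow_le_rpow_of_exponent_le hN1 (by linarith)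
      nlinarith
    have hE0 : 0 ≤ C3 * (z + X + (N : ℝ) ^ (1 - ε / 2)) := by positivity
    obtain ⟨E, hEe⟩ : ∃ E : ℝ, E = C3 * (z + X + (N : ℝ) ^ (1 - ε / 2)) := ⟨_, rfl⟩
    have hSa : ∑ L ∈ A, (∑ d ∈ T L, |DL f N L d|) ^ 2 ≤
        2 * (∑ L ∈ A, (∑ p ∈ (Icc 1 N).filter (fun p => p.Prime ∧ z < p),
          f p * (fun (L : ℤ × ℕ) (n : ℤ) => rL (c L) X L n) L p) ^ 2) + 2 * A.card * E ^ 2 := by
      calc ∑ L ∈ A, (∑ d ∈ T L, |DL f N L d|) ^ 2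
          ≤ ∑ L ∈ A, (2 * (∑ p ∈ (Icc 1 N).filter (fun p => p.Prime ∧ z < p),
              f p * (fun (L : ℤ × ℕ) (n : ℤ) => rL (c L) X L n) L p) ^ 2 + 2 * E ^ 2) := by
            refine sum_le_sum fun L hL => ?_
            have h1 := (hc L hL).2
            rw [← hEe] at h1
            have h2 : (∑ d ∈ T L, |DL f N L d|) ^ 2 ≤
                (|∑ p ∈ (Icc 1 N).filter (fun p => p.Prime ∧ z < p), f p * rL (c L) X L p| +
                  E) ^ 2 :=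
              pow_le_pow_left₀ (sum_nonneg fun d _ => abs_nonneg _) h1 2
            exact h2.trans (BX.TaskBK.two_sq _ _)
        _ = _ := by
            rw [sum_add_distrib, ← mul_sum, sum_const, nsmul_eq_mul]
            ring
    have hfin := TaskBLF.num hNr rfl he0 hC1 hC2 hC3 hη1 (by linarith)
      (Nat.cast_nonneg A.card) hlz (sum_nonneg fun p _ => sq_nonneg _) hFsQ hFsx rfl rfl hdu
      (hEe ▸ hE0) (hEe ▸ hE) hSa
    refine hfin.trans ?_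
    have hpos : (0 : ℝ) ≤ Q2 f N * (N / Real.log N) + A.card * (N : ℝ) ^ (2 - η) := by positivity
    have hM5 : (0 : ℝ) ≤ 4 * (M : ℝ) ^ 4 := by positivity
    have h7 := mul_nonneg hM5 hpos
    rw [add_mul (50 * C2 * (2 / e0) + 50 * C1 + 18 * C3 ^ 2)]
    exact le_add_of_nonneg_right h7

end Pool.Agent.W74.SG
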