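import Pool.Agent.W23.SG.Defs
import Pool.Agent.H442R2.BX.Bk
import Pool.Agent.H442R2.BX.Di
import Pool.Agent.H442R2.BX.Pr

/-!
SG project, task BLF (helper74), first part: duality for an arbitrary index type, the diagonal and
the prime side for linear forms (adapted from `BX/Du.lean`, `BX/Di.lean`, `BX/Pr.lean`).
-/

set_option autoImplicit false

namespace Pool.Agent.W74.SG

open Finset
open Pool.Agent.H442R2
open Pool.Agent.H442R2.KF
open Pool.Agent.W23.SG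

/-! ### duality -/

namespace DUg

variable {ι : Type} [DecidableEq ι] {w : ℤ → ℝ} {A : Finset ι} {r : ι → ℤ → ℝ} {Y : ι → ℝ}

/-- expansion of the square -/
theorem expand (n : ℤ) : w n * (∑ a ∈ A, Y a * r a n) ^ 2 =
    ∑ a ∈ A, ∑ a' ∈ A, Y a * Y a' * (w n * (r a n * r a' n)) := by
  rw [pow_two, Finset.sum_mul_sum, Finset.mul_sum]
  apply Finset.sum_congr rfl
  intro a _
  rw [Finset.mul_sum]
  apply Finset.sum_congr rfl
  intro a' _
  ring

theorem summ (hs : ∀ a ∈ A, ∀ a' ∈ A, Summable (fun n : ℤ => w n * (r a n * r a' n))) :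
    Summable (fun n : ℤ => w n * (∑ a ∈ A, Y a * r a n) ^ 2) := by
  have e : (fun n : ℤ => w n * (∑ a ∈ A, Y a * r a n) ^ 2) =
      fun n : ℤ => ∑ a ∈ A, ∑ a' ∈ A, Y a * Y a' * (w n * (r a n * r a' n)) :=
    funext (fun n => expand n)
  rw [e]
  apply summable_sum
  intro a ha
  apply summable_sum
  intro a' ha'
  exact (hs a ha a' ha').mul_left _

theorem tsum_eq (hs : ∀ a ∈ A, ∀ a' ∈ A, Summable (fun n : ℤ => w n * (r a n * r a' n))) :
    ∑' n : ℤ, w n * (∑ a ∈ A, Y a * r a n) ^ 2 =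
      ∑ a ∈ A, ∑ a' ∈ A, Y a * Y a' * ∑' n : ℤ, w n * (r a n * r a' n) := by
  have e : (fun n : ℤ => w n * (∑ a ∈ A, Y a * r a n) ^ 2) =
      fun n : ℤ => ∑ a ∈ A, ∑ a' ∈ A, Y a * Y a' * (w n * (r a n * r a' n)) :=
    funext (fun n => expand n)
  rw [e, Summable.tsum_finsetSum (fun a ha => summable_sum (fun a' ha' =>
    (hs a ha a' ha').mul_left _))]
  apply Finset.sum_congr rfl
  intro a ha
  rw [Summable.tsum_finsetSum (fun a' ha' => (hs a ha a' ha').mul_left _)]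
  apply Finset.sum_congr rfl
  intro a' ha'
  rw [tsum_mul_left]

theorem quad_le {G O : ℝ} (hO : 0 ≤ O) {B : ι → ι → ℝ} (hG : ∀ a ∈ A, B a a ≤ G)
    (hB : ∀ a ∈ A, ∀ a' ∈ A, a ≠ a' → |B a a'| ≤ O) :
    ∑ a ∈ A, ∑ a' ∈ A, Y a * Y a' * B a a' ≤ (G + A.card * O) * ∑ a ∈ A, Y a ^ 2 := by
  have h1 : ∀ a ∈ A, ∀ a' ∈ A, Y a * Y a' * B a a' ≤
      (if a = a' then Y a ^ 2 * G else 0) + |Y a| * |Y a'| * O := by
    intro a ha a' ha'
    by_cases h : a = a'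
    · subst h
      rw [if_pos rfl]
      have h2 : Y a * Y a * B a a ≤ Y a ^ 2 * G := by
        rw [pow_two]
        exact mul_le_mul_of_nonneg_left (hG a ha) (mul_self_nonneg _)
      have h3 : 0 ≤ |Y a| * |Y a| * O := by positivity
      linarith
    · rw [if_neg h, zero_add]
      calc Y a * Y a' * B a a' ≤ |Y a * Y a' * B a a'| := le_abs_self _
        _ = |Y a| * |Y a'| * |B a a'| := by rw [abs_mul, abs_mul]
        _ ≤ |Y a| * |Y a'| * O :=
          mul_le_mul_of_nonneg_left (hB a ha a' ha' h) (by positivity)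
  have h2 : ∑ a ∈ A, ∑ a' ∈ A, Y a * Y a' * B a a' ≤
      ∑ a ∈ A, ∑ a' ∈ A, ((if a = a' then Y a ^ 2 * G else 0) + |Y a| * |Y a'| * O) :=
    Finset.sum_le_sum (fun a ha => Finset.sum_le_sum (fun a' ha' => h1 a ha a' ha'))
  refine h2.trans ?_
  have h3 : ∑ a ∈ A, ∑ a' ∈ A, ((if a = a' then Y a ^ 2 * G else 0) + |Y a| * |Y a'| * O) =
      (∑ a ∈ A, Y a ^ 2) * G + (∑ a ∈ A, |Y a|) ^ 2 * O := by
    have e : ∀ a ∈ A, ∑ a' ∈ A, ((if a = a' then Y a ^ 2 * G else 0) + |Y a| * |Y a'| * O) =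
        Y a ^ 2 * G + |Y a| * (∑ a' ∈ A, |Y a'|) * O := by
      intro a ha
      rw [Finset.sum_add_distrib, Finset.sum_ite_eq A a, if_pos ha, Finset.mul_sum, Finset.sum_mul]
    rw [Finset.sum_congr rfl e, Finset.sum_add_distrib, Finset.sum_mul, pow_two, Finset.sum_mul,
      Finset.sum_mul]
  rw [h3]
  have h4 : (∑ a ∈ A, |Y a|) ^ 2 ≤ A.card * ∑ a ∈ A, Y a ^ 2 := by
    have := sq_sum_le_card_mul_sum_sq (s := A) (f := fun a => |Y a|)
    simpa only [sq_abs] using this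
  have h5 := mul_le_mul_of_nonneg_right h4 hO
  nlinarith

/-- duality -/
theorem du (w : ℤ → ℝ) (hw : ∀ n, 0 ≤ w n) (S : Finset ℕ)
    (hS : ∀ p ∈ S, (1 : ℝ) ≤ 25 * w p) (A : Finset ι) (r : ι → ℤ → ℝ) (f : ℕ → ℝ)
    (hs : ∀ a ∈ A, ∀ a' ∈ A, Summable (fun n : ℤ => w n * (r a n * r a' n)))
    (G O : ℝ) (hG : ∀ a ∈ A, ∑' n : ℤ, w n * (r a n * r a n) ≤ G) (hG0 : 0 ≤ G) (hO : 0 ≤ O)
    (hB : ∀ a ∈ A, ∀ a' ∈ A, a ≠ a' → |∑' n : ℤ, w n * (r a n * r a' n)| ≤ O) :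
    ∑ a ∈ A, (∑ p ∈ S, f p * r a p) ^ 2 ≤ 25 * (∑ p ∈ S, f p ^ 2) * (G + A.card * O) := by
  set Y : ι → ℝ := fun a => ∑ p ∈ S, f p * r a p with hY
  set V : ℝ := ∑ a ∈ A, Y a ^ 2 with hV
  set F : ℝ := ∑ p ∈ S, f p ^ 2 with hF
  set K : ℝ := G + A.card * O with hK
  have hK0 : 0 ≤ K := by positivity
  have hF0 : 0 ≤ F := Finset.sum_nonneg (fun p _ => sq_nonneg _)
  have hV0 : 0 ≤ V := Finset.sum_nonneg (fun p _ => sq_nonneg _)
  have e1 : V = ∑ p ∈ S, f p * ∑ a ∈ A, Y a * r a p := by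
    have e2 : ∀ a ∈ A, Y a ^ 2 = ∑ p ∈ S, f p * (Y a * r a p) := by
      intro a _
      rw [pow_two]
      nth_rw 2 [hY]
      rw [Finset.mul_sum]
      apply Finset.sum_congr rfl
      intro p _
      ring
    rw [hV, Finset.sum_congr rfl e2, Finset.sum_comm]
    apply Finset.sum_congr rfl
    intro p _
    rw [Finset.mul_sum]
  have h1 : V ^ 2 ≤ F * ∑ p ∈ S, (∑ a ∈ A, Y a * r a p) ^ 2 := by
    rw [e1]
    exact Finset.sum_mul_sq_le_sq_mul_sq S f (fun p => ∑ a ∈ A, Y a * r a p)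
  have h2 : ∑ p ∈ S, (∑ a ∈ A, Y a * r a p) ^ 2 ≤
      25 * ∑ p ∈ S, w p * (∑ a ∈ A, Y a * r a p) ^ 2 := by
    rw [Finset.mul_sum]
    apply Finset.sum_le_sum
    intro p hp
    have := mul_le_mul_of_nonneg_right (hS p hp) (sq_nonneg (∑ a ∈ A, Y a * r a p))
    linarith
  have h3 : ∑ p ∈ S, w p * (∑ a ∈ A, Y a * r a p) ^ 2 ≤
      ∑' n : ℤ, w n * (∑ a ∈ A, Y a * r a n) ^ 2 := by
    have := (summ (Y := Y) hs).sum_le_tsum (S.map Nat.castEmbedding)
      (fun n _ => mul_nonneg (hw n) (sq_nonneg _))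
    rw [Finset.sum_map] at this
    exact this
  have h4 : ∑' n : ℤ, w n * (∑ a ∈ A, Y a * r a n) ^ 2 ≤ K * V := by
    rw [tsum_eq hs]
    exact quad_le hO hG hB
  have h5 : V ^ 2 ≤ F * (25 * (K * V)) := by
    refine h1.trans (mul_le_mul_of_nonneg_left ?_ hF0)
    linarith
  rcases eq_or_lt_of_le hV0 with h | h
  · rw [← h]
    positivity
  · have h6 : V * V ≤ (25 * F * K) * V := by nlinarith
    exact le_of_mul_le_mul_right h6 h

end DUg

/-! ### the functions `RL`, `rL` -/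

theorem dl_bd (d : ℕ) (hd : 1 ≤ d) (m : ℤ) : |BX.dl d m| ≤ 1 := by
  unfold BX.dl
  have hd' : (1 : ℝ) ≤ d := by exact_mod_cast hd
  have h1 : 0 ≤ 1 / (d : ℝ) := by positivity
  have h2 : 1 / (d : ℝ) ≤ 1 := by
    rw [div_le_one (by linarith)]
    exact hd'
  rw [abs_le]
  split_ifs <;> constructor <;> linarith

theorem RL_bd (c : ℕ → ℝ) (X : ℕ) (L : ℤ × ℕ) (n : ℤ) (hc : ∀ d, |c d| ≤ 1) :
    |RL c X L n| ≤ X := by
  unfold RL
  refine (Finset.abs_sum_le_sum_abs _ _).trans ?_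
  calc ∑ d ∈ Icc 1 X, |c d * BX.dl d (lf L n)| ≤ ∑ d ∈ Icc 1 X, (1 : ℝ) := by
        apply Finset.sum_le_sum
        intro d hd
        rw [abs_mul]
        have h1 := hc d
        have h2 := dl_bd d (Finset.mem_Icc.1 hd).1 (lf L n)
        calc |c d| * |BX.dl d (lf L n)| ≤ 1 * 1 := mul_le_mul h1 h2 (abs_nonneg _) zero_le_one
          _ = 1 := by norm_num
    _ = X := by simp

theorem rL_bd (c : ℕ → ℝ) (X : ℕ) (L : ℤ × ℕ) (n : ℤ) (hc : ∀ d, |c d| ≤ 1) :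
    |rL c X L n| ≤ X := by
  unfold rL
  split_ifs
  · rw [abs_zero]; positivity
  · exact RL_bd c X L n hc

theorem summ_rL (N z X : ℕ) (hN : 1 ≤ N) (lam c c' : ℕ → ℝ) (hl : ∀ q, |lam q| ≤ 1)
    (hc : ∀ d, |c d| ≤ 1) (hc' : ∀ d, |c' d| ≤ 1) (L L' : ℤ × ℕ) :
    Summable (fun n : ℤ => Wt N n * BX.nuS lam z n * (rL c X L n * rL c' X L' n)) := by
  have hs := (BX.TaskDI.sum_nuS (lam := lam) (z := z) hl N hN).mul_right ((X : ℝ) * X)
  refine Summable.of_norm_bounded hs ?_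
  intro n
  have h1 : 0 ≤ Wt N n * BX.nuS lam z n :=
    mul_nonneg (Real.exp_pos _).le (BX.TaskDI.nuS_nonneg _ _ _)
  rw [Real.norm_eq_abs, abs_mul, abs_of_nonneg h1, abs_mul]
  have h2 := rL_bd c X L n hc
  have h3 := rL_bd c' X L' n hc'
  exact mul_le_mul_of_nonneg_left
    (mul_le_mul h2 h3 (abs_nonneg _) (Nat.cast_nonneg _)) h1

/-! ### the diagonal -/

/-- the diagonal terms -/
theorem diL (hPBL : St_PBL) (hGS : BX.St_GS) (hGW : BX.St_GW) : ∀ ε : ℝ, 0 < ε →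
    ∃ (N₀ : ℕ) (C : ℝ), 0 < C ∧ ∀ (N z X : ℕ), N₀ ≤ N → X ≤ N →
    2 ≤ z → (z : ℝ) ≤ (N : ℝ) ^ (1 / 4 : ℝ) → ∀ lam : ℕ → ℝ, BX.SW z lam →
    ∀ L : ℤ × ℕ, Fo N L → ∀ c : ℕ → ℝ, CofL ((N : ℝ) ^ ε) X L c →
    ∑' n : ℤ, Wt N n * BX.nuS lam z n * (rL c X L n * rL c X L n) ≤ C * N / Real.log z := by
  intro ε hε
  obtain ⟨N₁, C₁, hC₁, hP⟩ := hPBL ε hε
  obtain ⟨N₂, hG⟩ := hGW
  refine ⟨max (max N₁ N₂) 1, 12 * C₁ ^ 2, by positivity, ?_⟩
  intro N z X hN hX hz hzN lam hlam L hL c hc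
  have hN1 : N₁ ≤ N := (le_max_left _ _).trans ((le_max_left _ _).trans hN)
  have hN2 : N₂ ≤ N := (le_max_right _ _).trans ((le_max_left _ _).trans hN)
  have hN3 : 1 ≤ N := (le_max_right _ _).trans hN
  have hNr : (1 : ℝ) ≤ N := by exact_mod_cast hN3
  have hsq : ∀ n : ℤ, rL c X L n * rL c X L n ≤ C₁ ^ 2 * (1 + |(n : ℝ)| / N) := by
    intro n
    have h1 := (hP N X hN1 hX L hL).2 c hc n
    have h0 : 0 ≤ |(n : ℝ)| / N := div_nonneg (abs_nonneg _) (by linarith)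
    have h2 : (((1 + |(n : ℝ)| / N) ^ (1 / 4 : ℝ)) ^ 2 : ℝ) ≤ 1 + |(n : ℝ)| / N := by
      rw [← Real.rpow_natCast, ← Real.rpow_mul (by linarith)]
      calc (1 + |(n : ℝ)| / N) ^ ((1 / 4 : ℝ) * (2 : ℕ))
          ≤ (1 + |(n : ℝ)| / N) ^ (1 : ℝ) :=
            Real.rpow_le_rpow_of_exponent_le (by linarith) (by norm_num)
        _ = _ := Real.rpow_one _
    calc rL c X L n * rL c X L n = |rL c X L n| ^ 2 := by rw [sq_abs, sq]
      _ ≤ (C₁ * (1 + |(n : ℝ)| / N) ^ (1 / 4 : ℝ)) ^ 2 :=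
          pow_le_pow_left₀ (abs_nonneg _) h1 2
      _ = C₁ ^ 2 * ((1 + |(n : ℝ)| / N) ^ (1 / 4 : ℝ)) ^ 2 := by ring
      _ ≤ _ := mul_le_mul_of_nonneg_left h2 (by positivity)
  have hle : ∀ n : ℤ, Wt N n * BX.nuS lam z n * (rL c X L n * rL c X L n) ≤
      2 * C₁ ^ 2 * (Wt (2 * N) n * BX.nuS lam z n) := by
    intro n
    have hw : 0 ≤ Wt N n := (Real.exp_pos _).le
    have hnu := BX.TaskDI.nuS_nonneg lam z n
    calc Wt N n * BX.nuS lam z n * (rL c X L n * rL c X L n)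
        ≤ Wt N n * BX.nuS lam z n * (C₁ ^ 2 * (1 + |(n : ℝ)| / N)) :=
          mul_le_mul_of_nonneg_left (hsq n) (mul_nonneg hw hnu)
      _ = C₁ ^ 2 * BX.nuS lam z n * (Wt N n * (1 + |(n : ℝ)| / N)) := by ring
      _ ≤ C₁ ^ 2 * BX.nuS lam z n * (2 * Wt (2 * N) n) :=
          mul_le_mul_of_nonneg_left ((hGS N hN3).1 n) (mul_nonneg (sq_nonneg _) hnu)
      _ = _ := by ring
  have hs := (BX.TaskDI.sum_nuS (lam := lam) (z := z) hlam.bd (2 * N) (by omega)).mul_left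
    (2 * C₁ ^ 2)
  have hs0 : Summable (fun n : ℤ => Wt N n * BX.nuS lam z n * (rL c X L n * rL c X L n)) :=
    summ_rL N z X hN3 lam c c hlam.bd hc.bd hc.bd L L
  have hfin := hG (2 * N) z (by omega) hz (hzN.trans (by
    refine Real.rpow_le_rpow (by linarith) ?_ (by norm_num)
    push_cast
    linarith)) lam hlam
  calc ∑' n : ℤ, Wt N n * BX.nuS lam z n * (rL c X L n * rL c X L n)
      ≤ ∑' n : ℤ, 2 * C₁ ^ 2 * (Wt (2 * N) n * BX.nuS lam z n) := hs0.tsum_le_tsum hle hs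
    _ = 2 * C₁ ^ 2 * ∑' n : ℤ, Wt (2 * N) n * BX.nuS lam z n := tsum_mul_left
    _ ≤ 2 * C₁ ^ 2 * (3 * ((2 * N : ℕ) : ℝ) / Real.log z) :=
        mul_le_mul_of_nonneg_left hfin (by positivity)
    _ = 12 * C₁ ^ 2 * N / Real.log z := by
        push_cast
        ring

/-! ### the prime side -/

/-- the coefficients: the signs of the discrepancies -/
noncomputable def co (f : ℕ → ℝ) (N : ℕ) (L : ℤ × ℕ) (T : Finset ℕ) (d : ℕ) : ℝ :=
  if d ∈ T then (if 0 ≤ DL f N L d then 1 else -1) else 0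

theorem co_bd (f : ℕ → ℝ) (N : ℕ) (L : ℤ × ℕ) (T : Finset ℕ) (d : ℕ) : |co f N L T d| ≤ 1 := by
  unfold co
  split_ifs <;> simp

theorem co_mem {f : ℕ → ℝ} {N : ℕ} {L : ℤ × ℕ} {T : Finset ℕ} {d : ℕ} (h : co f N L T d ≠ 0) :
    d ∈ T := by
  by_contra hd
  exact h (by unfold co; rw [if_neg hd])

theorem co_mul {f : ℕ → ℝ} {N : ℕ} {L : ℤ × ℕ} {T : Finset ℕ} {d : ℕ} (h : d ∈ T) :
    co f N L T d * DL f N L d = |DL f N L d| := by
  unfold co
  rw [if_pos h]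
  split_ifs with h0
  · rw [one_mul, abs_of_nonneg h0]
  · rw [neg_one_mul, abs_of_neg (not_le.1 h0)]

theorem DL_eq (f : ℕ → ℝ) (N : ℕ) (L : ℤ × ℕ) (d : ℕ) :
    DL f N L d = ∑ p ∈ (Icc 1 N).filter Nat.Prime, f p * BX.dl d (lf L p) -
      (∑ p ∈ (Icc 1 N).filter Nat.Prime, f p) * (1 / (Nat.totient d : ℝ) - 1 / (d : ℝ)) := by
  have h1 : ∑ p ∈ (Icc 1 N).filter (fun p : ℕ => p.Prime ∧ (d : ℤ) ∣ lf L p), f p =
      ∑ p ∈ (Icc 1 N).filter Nat.Prime, f p * (if (d : ℤ) ∣ lf L p then 1 else 0) := by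
    rw [Finset.sum_filter, Finset.sum_filter]
    apply Finset.sum_congr rfl
    intro p _
    by_cases hp : p.Prime
    · by_cases hd : (d : ℤ) ∣ lf L p
      · rw [if_pos ⟨hp, hd⟩, if_pos hp, if_pos hd, mul_one]
      · rw [if_neg (fun h => hd h.2), if_pos hp, if_neg hd, mul_zero]
    · rw [if_neg (fun h => hp h.1), if_neg hp]
  have h2 : ∑ p ∈ (Icc 1 N).filter Nat.Prime, f p * BX.dl d (lf L p) =
      ∑ p ∈ (Icc 1 N).filter Nat.Prime, f p * (if (d : ℤ) ∣ lf L p then 1 else 0) -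
        (∑ p ∈ (Icc 1 N).filter Nat.Prime, f p) * (1 / (d : ℝ)) := by
    rw [Finset.sum_mul, ← Finset.sum_sub_distrib]
    apply Finset.sum_congr rfl
    intro p _
    unfold BX.dl
    ring
  unfold DL
  rw [h1, h2]
  ring

theorem RL_eq (f : ℕ → ℝ) (N X : ℕ) (L : ℤ × ℕ) (T : Finset ℕ) (hT : ∀ d ∈ T, 1 < d ∧ d ≤ X)
    (n : ℤ) : RL (co f N L T) X L n = ∑ d ∈ T, co f N L T d * BX.dl d (lf L n) := by
  unfold RL
  symm
  apply Finset.sum_subset
  · intro d hd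
    exact Finset.mem_Icc.2 ⟨(hT d hd).1.le, (hT d hd).2⟩
  · intro d _ hd
    have : co f N L T d = 0 := by
      by_contra h
      exact hd (co_mem h)
    rw [this, zero_mul]

/-- the prime side -/
theorem prL (hPBL : St_PBL) (hRT : BX.St_RT) : ∀ ε : ℝ, 0 < ε →
    ∃ (N₀ : ℕ) (C : ℝ), 0 < C ∧ ∀ (N z X : ℕ), N₀ ≤ N → X ≤ N →
    ∀ f : ℕ → ℝ, (∀ p, |f p| ≤ 1) → ∀ L : ℤ × ℕ, Fo N L →
    ∀ T : Finset ℕ, (∀ d ∈ T, d ≤ X ∧ BX.Rough ((N : ℝ) ^ ε) d ∧ Nat.Coprime d L.2) →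
    ∃ c : ℕ → ℝ, CofL ((N : ℝ) ^ ε) X L c ∧ (∀ d, c d ≠ 0 → d ∈ T) ∧
      ∑ d ∈ T, |DL f N L d| ≤
        |∑ p ∈ (Icc 1 N).filter (fun p => p.Prime ∧ z < p), f p * rL c X L p| +
          C * (z + X + (N : ℝ) ^ (1 - ε / 2)) := by
  intro ε hε
  obtain ⟨N₁, C₁, hC₁, hPB⟩ := hPBL ε hε
  obtain ⟨C₂, hC₂, hRT⟩ := hRT ε hε
  refine ⟨max N₁ 2, 2 * C₁ + 1 + C₂, by positivity, ?_⟩
  intro N z X hN hXN f hf L hL T hT
  have hN1 : N₁ ≤ N := (le_max_left _ _).trans hN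
  have hN2 : 2 ≤ N := (le_max_right _ _).trans hN
  have hNpos : (0 : ℝ) < N := by exact_mod_cast (by omega : 0 < N)
  have hCof : CofL ((N : ℝ) ^ ε) X L (co f N L T) :=
    ⟨fun d => co_bd f N L T d, fun d hd => hT d (co_mem hd)⟩
  refine ⟨co f N L T, hCof, fun d hd => co_mem hd, ?_⟩
  set c := co f N L T with hc
  set P := (Icc 1 N).filter Nat.Prime with hP
  set F := ∑ p ∈ P, f p with hF
  -- number of primes
  have hPcard : (P.card : ℝ) ≤ N := by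
    have : P.card ≤ (Icc 1 N).card := Finset.card_filter_le _ _
    rw [Nat.card_Icc] at this
    exact_mod_cast (by omega : P.card ≤ N)
  have hFabs : |F| ≤ N := by
    refine (Finset.abs_sum_le_sum_abs _ _).trans ?_
    refine (Finset.sum_le_sum (fun p _ => hf p)).trans ?_
    simpa using hPcard
  -- the error from the totients
  have hE : |F * ∑ d ∈ T, c d * (1 / (Nat.totient d : ℝ) - 1 / (d : ℝ))| ≤
      C₂ * (N : ℝ) ^ (1 - ε / 2) := by
    have hnn : ∀ d : ℕ, 1 ≤ d → 0 ≤ 1 / (Nat.totient d : ℝ) - 1 / (d : ℝ) := by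
      intro d hd
      have h1 : 0 < Nat.totient d := Nat.totient_pos.2 hd
      have h2 : (Nat.totient d : ℝ) ≤ d := by exact_mod_cast Nat.totient_le d
      have h1' : (0 : ℝ) < Nat.totient d := by exact_mod_cast h1
      have := one_div_le_one_div_of_le h1' h2
      linarith
    have hs : |∑ d ∈ T, c d * (1 / (Nat.totient d : ℝ) - 1 / (d : ℝ))| ≤
        C₂ * (N : ℝ) ^ (-(ε / 2)) := by
      refine (Finset.abs_sum_le_sum_abs _ _).trans ?_
      refine le_trans ?_ (hRT N hN2)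
      have hsub : T ⊆ BX.roughs ((N : ℝ) ^ ε) N := by
        intro d hd
        have h := hT d hd
        exact BX.TaskPR.mem_roughs_iff.2 ⟨⟨h.2.1.1.le, h.1.trans hXN⟩, h.2.1⟩
      calc ∑ d ∈ T, |c d * (1 / (Nat.totient d : ℝ) - 1 / (d : ℝ))|
          ≤ ∑ d ∈ T, (1 / (Nat.totient d : ℝ) - 1 / (d : ℝ)) := by
            apply Finset.sum_le_sum
            intro d hd
            have h0 := hnn d (hT d hd).2.1.1.le
            rw [abs_mul, abs_of_nonneg h0]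
            calc |c d| * _ ≤ 1 * (1 / (Nat.totient d : ℝ) - 1 / (d : ℝ)) :=
                  mul_le_mul_of_nonneg_right (co_bd f N L T d) h0
              _ = _ := one_mul _
        _ ≤ ∑ d ∈ BX.roughs ((N : ℝ) ^ ε) N, (1 / (Nat.totient d : ℝ) - 1 / (d : ℝ)) := by
            apply Finset.sum_le_sum_of_subset_of_nonneg hsub
            intro d hd _
            apply hnn
            exact (BX.TaskPR.mem_roughs_iff.1 hd).1.1
    rw [abs_mul]
    calc |F| * |∑ d ∈ T, c d * (1 / (Nat.totient d : ℝ) - 1 / (d : ℝ))|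
        ≤ N * (C₂ * (N : ℝ) ^ (-(ε / 2))) :=
          mul_le_mul hFabs hs (abs_nonneg _) hNpos.le
      _ = C₂ * (N : ℝ) ^ (1 - ε / 2) := by
          rw [sub_eq_add_neg, Real.rpow_add hNpos, Real.rpow_one]
          ring
  -- the main identity
  have hT' : ∀ d ∈ T, 1 < d ∧ d ≤ X := fun d hd => ⟨(hT d hd).2.1.1, (hT d hd).1⟩
  have hid : ∑ d ∈ T, |DL f N L d| = ∑ p ∈ P, f p * RL c X L p -
      F * ∑ d ∈ T, c d * (1 / (Nat.totient d : ℝ) - 1 / (d : ℝ)) := by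
    have h1 : ∑ d ∈ T, |DL f N L d| = ∑ d ∈ T, c d * DL f N L d :=
      Finset.sum_congr rfl (fun d hd => (co_mul hd).symm)
    have h2 : ∑ p ∈ P, f p * RL c X L p = ∑ d ∈ T, c d * ∑ p ∈ P, f p * BX.dl d (lf L p) := by
      have h3 : ∀ p ∈ P, f p * RL c X L p = ∑ d ∈ T, c d * (f p * BX.dl d (lf L p)) := by
        intro p _
        rw [hc, RL_eq f N X L T hT', Finset.mul_sum]
        apply Finset.sum_congr rfl
        intro d _
        ring
      rw [Finset.sum_congr rfl h3, Finset.sum_comm]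
      apply Finset.sum_congr rfl
      intro d _
      rw [Finset.mul_sum]
    rw [h1, h2, Finset.mul_sum, ← Finset.sum_sub_distrib]
    apply Finset.sum_congr rfl
    intro d _
    rw [DL_eq]
    ring
  -- replace RL by rL
  have hself : |∑ p ∈ P, f p * (RL c X L p - rL c X L p)| ≤ X := by
    have hz : ∀ p ∈ P, lf L p ≠ 0 → f p * (RL c X L p - rL c X L p) = 0 := by
      intro p _ hp
      unfold rL
      rw [if_neg hp, sub_self, mul_zero]
    by_cases hex : ∃ p ∈ P, lf L p = 0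
    · obtain ⟨p₀, hp₀, hp₀a⟩ := hex
      rw [Finset.sum_eq_single_of_mem p₀ hp₀]
      · have h1 : rL c X L (p₀ : ℤ) = 0 := by
          unfold rL
          rw [if_pos hp₀a]
        rw [h1, sub_zero, abs_mul]
        calc |f p₀| * |RL c X L p₀| ≤ 1 * X :=
              mul_le_mul (hf p₀) (RL_bd c X L p₀ (fun d => co_bd f N L T d)) (abs_nonneg _)
                zero_le_one
          _ = X := one_mul _
      · intro p hp hpne
        apply hz p hp
        intro h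
        apply hpne
        have hb : (L.2 : ℤ) ≠ 0 := by
          have := hL.b1
          exact_mod_cast (by omega : L.2 ≠ 0)
        unfold lf at h hp₀a
        have h2 : (L.2 : ℤ) * p = L.2 * p₀ := by linarith
        have h3 : (p : ℤ) = (p₀ : ℤ) := mul_left_cancel₀ hb h2
        exact_mod_cast h3
    · have h0 : ∑ p ∈ P, f p * (RL c X L p - rL c X L p) = 0 := by
        apply Finset.sum_eq_zero
        intro p hp
        apply hz p hp
        intro h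
        exact hex ⟨p, hp, h⟩
      rw [h0, abs_zero]
      positivity
  -- small primes
  have hsmall : |∑ p ∈ P.filter (fun p => ¬ z < p), f p * rL c X L p| ≤ 2 * C₁ * z := by
    refine (Finset.abs_sum_le_sum_abs _ _).trans ?_
    have hterm : ∀ p ∈ P.filter (fun p => ¬ z < p), |f p * rL c X L p| ≤ 2 * C₁ := by
      intro p hp
      have hpP := (Finset.mem_filter.1 hp).1
      have hpN : p ≤ N := (Finset.mem_Icc.1 (Finset.mem_filter.1 hpP).1).2
      have h1 := (hPB N X hN1 hXN L hL).2 c hCof p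
      have h2 : (1 + |(((p : ℕ) : ℤ) : ℝ)| / N) ≤ 2 := by
        have h3 : |(((p : ℕ) : ℤ) : ℝ)| = (p : ℝ) := by
          rw [Int.cast_natCast]
          exact abs_of_nonneg (Nat.cast_nonneg p)
        rw [h3]
        have h4 : (p : ℝ) / N ≤ 1 := by
          rw [div_le_one hNpos]
          exact_mod_cast hpN
        linarith
      have h0 : (0 : ℝ) ≤ 1 + |(((p : ℕ) : ℤ) : ℝ)| / N := by positivity
      have h5 : (1 + |(((p : ℕ) : ℤ) : ℝ)| / N) ^ (1 / 4 : ℝ) ≤ 2 := by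
        calc (1 + |(((p : ℕ) : ℤ) : ℝ)| / N) ^ (1 / 4 : ℝ) ≤ (2 : ℝ) ^ (1 / 4 : ℝ) :=
              Real.rpow_le_rpow h0 h2 (by norm_num)
          _ ≤ (2 : ℝ) ^ (1 : ℝ) := Real.rpow_le_rpow_of_exponent_le (by norm_num) (by norm_num)
          _ = 2 := Real.rpow_one 2
      rw [abs_mul]
      calc |f p| * |rL c X L p| ≤ 1 * (C₁ * (1 + |(((p : ℕ) : ℤ) : ℝ)| / N) ^ (1 / 4 : ℝ)) :=
            mul_le_mul (hf p) h1 (abs_nonneg _) zero_le_one
        _ ≤ 2 * C₁ := by nlinarith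
    refine (Finset.sum_le_sum hterm).trans ?_
    rw [Finset.sum_const, nsmul_eq_mul]
    have hcard : (P.filter (fun p => ¬ z < p)).card ≤ z := by
      have hsub : P.filter (fun p => ¬ z < p) ⊆ Icc 1 z := by
        intro p hp
        rw [Finset.mem_filter] at hp
        have h1 := Finset.mem_Icc.1 (Finset.mem_filter.1 hp.1).1
        exact Finset.mem_Icc.2 ⟨h1.1, not_lt.1 hp.2⟩
      calc (P.filter (fun p => ¬ z < p)).card ≤ (Icc 1 z).card := Finset.card_le_card hsub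
        _ = z := by rw [Nat.card_Icc]; omega
    have hcard' : ((P.filter (fun p => ¬ z < p)).card : ℝ) ≤ z := by exact_mod_cast hcard
    calc ((P.filter (fun p => ¬ z < p)).card : ℝ) * (2 * C₁) ≤ z * (2 * C₁) :=
          mul_le_mul_of_nonneg_right hcard' (by positivity)
      _ = 2 * C₁ * z := by ring
  -- splitting
  have hsplit : ∑ p ∈ P, f p * RL c X L p =
      ∑ p ∈ P.filter (fun p => z < p), f p * rL c X L p +
      ∑ p ∈ P.filter (fun p => ¬ z < p), f p * rL c X L p +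
      ∑ p ∈ P, f p * (RL c X L p - rL c X L p) := by
    rw [Finset.sum_filter_add_sum_filter_not, ← Finset.sum_add_distrib]
    apply Finset.sum_congr rfl
    intro p _
    ring
  have hfil : (Icc 1 N).filter (fun p => p.Prime ∧ z < p) = P.filter (fun p => z < p) := by
    rw [hP, Finset.filter_filter]
  rw [hfil, hid, hsplit]
  have e1 := le_abs_self (∑ p ∈ P.filter (fun p => z < p), f p * rL c X L p)
  have e2 := le_abs_self (∑ p ∈ P.filter (fun p => ¬ z < p), f p * rL c X L p)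
  have e3 := le_abs_self (∑ p ∈ P, f p * (RL c X L p - rL c X L p))
  have e4 := neg_abs_le (F * ∑ d ∈ T, c d * (1 / (Nat.totient d : ℝ) - 1 / (d : ℝ)))
  have hz0 : (0 : ℝ) ≤ z := Nat.cast_nonneg z
  have hX0 : (0 : ℝ) ≤ X := Nat.cast_nonneg X
  have hp0 : 0 ≤ (N : ℝ) ^ (1 - ε / 2) := by positivity
  have k1 : 2 * C₁ * z ≤ (2 * C₁ + 1 + C₂) * z := by nlinarith
  have k2 : (X : ℝ) ≤ (2 * C₁ + 1 + C₂) * X := by nlinarith
  have k3 : C₂ * (N : ℝ) ^ (1 - ε / 2) ≤ (2 * C₁ + 1 + C₂) * (N : ℝ) ^ (1 - ε / 2) := by nlinarith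
  have k4 : (2 * C₁ + 1 + C₂) * (z + X + (N : ℝ) ^ (1 - ε / 2)) =
      (2 * C₁ + 1 + C₂) * z + (2 * C₁ + 1 + C₂) * X +
        (2 * C₁ + 1 + C₂) * (N : ℝ) ^ (1 - ε / 2) := by ring
  rw [k4]
  linarith

end Pool.Agent.W74.SG
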